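import Pool.Agent.Helper53.PT.GoalsC
import Mathlib.Analysis.SpecialFunctions.Log.Deriv

/-!
# MP_705522_gt, packet PT-LN: soundness of `N.lnL` and `N.lnU`
-/

namespace Pool.Agent.Helper35.PT

open Pool.Agent.Helper53.PT

theorem frc_eq {α : Type} (n : ℕ) (f : ℕ → α) : N.frc n f = f n := by
  cases n <;> rfl

/-- floor of a quotient by `2^40`, in the reals -/
theorem flo (a : ℕ) : ((a >>> 40 : ℕ) : ℝ) * 1099511627776 ≤ a ∧
    (a : ℝ) ≤ (((a >>> 40 : ℕ) : ℝ) + 1) * 1099511627776 := by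
  have h1 : a >>> 40 = a / 1099511627776 := by rw [Nat.shiftRight_eq_div_pow]
  have h2 : (a / 1099511627776) * 1099511627776 ≤ a := Nat.div_mul_le_self _ _
  have h3 : a ≤ (a / 1099511627776 + 1) * 1099511627776 := by omega
  rw [h1]
  constructor
  · exact_mod_cast h2
  · exact_mod_cast h3

/-- one step of the Horner scheme -/
theorem horner {u h c : ℕ} {U r q : ℝ} (hU0 : 0 ≤ U) (hU : U ≤ 1 / 9)
    (hu1 : (u : ℝ) ≤ 1099511627776 * U) (hu2 : 1099511627776 * U ≤ u + 1)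
    (hr0 : 0 ≤ r) (hr : r ≤ 1 / 2) (h1 : (h : ℝ) ≤ 1099511627776 * r)
    (h2 : 1099511627776 * r ≤ h + 3) (hc1 : (c : ℝ) ≤ 1099511627776 * q)
    (hc2 : 1099511627776 * q ≤ c + 1) (hq0 : 0 ≤ q) (hq : q ≤ 1 / 3) :
    0 ≤ q + U * r ∧ q + U * r ≤ 1 / 2 ∧
    ((c + (u * h) >>> 40 : ℕ) : ℝ) ≤ 1099511627776 * (q + U * r) ∧
    (1099511627776 : ℝ) * (q + U * r) ≤ ((c + (u * h) >>> 40 : ℕ) : ℝ) + (3 : ℝ) := by
  obtain ⟨f1, f2⟩ := flo (u * h)
  push_cast at f1 f2 ⊢
  have hu0 : (0 : ℝ) ≤ u := Nat.cast_nonneg u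
  have hh0 : (0 : ℝ) ≤ h := Nat.cast_nonneg h
  refine ⟨by positivity, ?_, ?_, ?_⟩
  · nlinarith
  · have h5 : (u : ℝ) * h ≤ (1099511627776 * U) * (1099511627776 * r) :=
      mul_le_mul hu1 h1 hh0 (by positivity)
    nlinarith
  · have h6 : 1099511627776 * U * r ≤ (u + 1) * r := mul_le_mul_of_nonneg_right hu2 hr0
    have h7 : (u : ℝ) * (1099511627776 * r) ≤ u * (h + 3) := mul_le_mul_of_nonneg_left h2 hu0
    nlinarith

/-- the last step (constant term exact) -/
theorem horner0 {u h : ℕ} {U r : ℝ} (hU0 : 0 ≤ U) (hU : U ≤ 1 / 9)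
    (hu1 : (u : ℝ) ≤ 1099511627776 * U) (hu2 : 1099511627776 * U ≤ u + 1)
    (hr0 : 0 ≤ r) (hr : r ≤ 1 / 2) (h1 : (h : ℝ) ≤ 1099511627776 * r)
    (h2 : 1099511627776 * r ≤ h + 3) :
    ((1099511627776 + (u * h) >>> 40 : ℕ) : ℝ) ≤ 1099511627776 * (1 + U * r) ∧
    (1099511627776 : ℝ) * ((1 : ℝ) + U * r) ≤ ((1099511627776 + (u * h) >>> 40 : ℕ) : ℝ) + (2 : ℝ) := by
  obtain ⟨f1, f2⟩ := flo (u * h)
  push_cast at f1 f2 ⊢
  have hu0 : (0 : ℝ) ≤ u := Nat.cast_nonneg u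
  have hh0 : (0 : ℝ) ≤ h := Nat.cast_nonneg h
  refine ⟨?_, ?_⟩
  · have h5 : (u : ℝ) * h ≤ (1099511627776 * U) * (1099511627776 * r) :=
      mul_le_mul hu1 h1 hh0 (by positivity)
    nlinarith
  · have h6 : 1099511627776 * U * r ≤ (u + 1) * r := mul_le_mul_of_nonneg_right hu2 hr0
    have h7 : (u : ℝ) * (1099511627776 * r) ≤ u * (h + 3) := mul_le_mul_of_nonneg_left h2 hu0
    nlinarith

theorem at2_unf (t : ℕ) : N.at2 t = ((2 * t) * (1099511627776 + (((t * t) >>> 40) *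
    (366503875925 + (((t * t) >>> 40) *
    (219902325555 + (((t * t) >>> 40) *
    (157073089682 + (((t * t) >>> 40) *
    (122167958641 + (((t * t) >>> 40) *
    (99955602525 + (((t * t) >>> 40) *
    (84577817521 + (((t * t) >>> 40) *
    (73300775185 + (((t * t) >>> 40) *
    (64677154575 + (((t * t) >>> 40) *
    (57869033040 + (((t * t) >>> 40) *
    (52357696560 + (((t * t) >>> 40) *
    (47804853381 + (((t * t) >>> 40) * 43980465111) >>> 40)) >>> 40)) >>> 40)) >>> 40)) >>> 40)) >>> 40)) >>> 40))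
      >>> 40)) >>> 40)) >>> 40)) >>> 40)) >>> 40)) >>> 40 := by
  rw [N.at2, frc_eq]
  rfl

/-- the partial sum of the series in Horner form -/
theorem sumR (x : ℝ) : ∑ i ∈ Finset.range 13, x ^ (2 * i + 1) / (2 * i + 1 : ℝ) =
    x * (1 + x ^ 2 * (1 / 3 + x ^ 2 * (1 / 5 + x ^ 2 * (1 / 7 + x ^ 2 * (1 / 9 + x ^ 2 *
    (1 / 11 + x ^ 2 * (1 / 13 + x ^ 2 * (1 / 15 + x ^ 2 * (1 / 17 + x ^ 2 * (1 / 19 + x ^ 2 * (1 / 21 + x ^ 2 *
    (1 / 23 + x ^ 2 * (1 / 25))))))))))))) := by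
  simp only [Finset.sum_range_succ, Finset.sum_range_zero]
  norm_num
  ring

/-- the final multiplication -/
theorem at2_fin {t h0 : ℕ} {x R : ℝ} (ht : (t : ℝ) = 1099511627776 * x) (hx0 : 0 ≤ x) (hx3 : x ≤ 1 / 3)
    (c1 : (h0 : ℝ) ≤ 1099511627776 * R) (c2 : 1099511627776 * R ≤ (h0 : ℝ) + 2) :
    ((((2 * t) * h0) >>> 40 : ℕ) : ℝ) ≤ 1099511627776 * (2 * (x * R)) ∧
    (1099511627776 : ℝ) * ((2 : ℝ) * (x * R)) ≤ ((((2 * t) * h0) >>> 40 : ℕ) : ℝ) + (3 : ℝ) := by
  obtain ⟨g1, g2⟩ := flo ((2 * t) * h0)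
  push_cast at g1 g2
  rw [ht] at g1 g2
  have h1 : x * h0 ≤ x * (1099511627776 * R) := mul_le_mul_of_nonneg_left c1 hx0
  have h2 : x * (1099511627776 * R) ≤ x * ((h0 : ℝ) + 2) := mul_le_mul_of_nonneg_left c2 hx0
  constructor
  · linarith
  · linarith

/-- the polynomial of `at2` -/
theorem at2_poly {t : ℕ} {x : ℝ} (hx : x = (t : ℝ) / 1099511627776) (hx3 : x ≤ 1 / 3) :
    (N.at2 t : ℝ) ≤ 1099511627776 * (2 * ∑ i ∈ Finset.range 13, x ^ (2 * i + 1) / (2 * i + 1)) ∧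
    1099511627776 * (2 * ∑ i ∈ Finset.range 13, x ^ (2 * i + 1) / (2 * i + 1)) ≤ (N.at2 t : ℝ) + 3 := by
  have hx0 : 0 ≤ x := by rw [hx]; positivity
  have ht : (t : ℝ) = 1099511627776 * x := by rw [hx]; ring
  have hU0 : 0 ≤ x ^ 2 := by positivity
  have hU : x ^ 2 ≤ 1 / 9 := by nlinarith
  obtain ⟨f1, f2⟩ := flo (t * t)
  push_cast at f1 f2
  rw [ht] at f1 f2
  rw [at2_unf]
  generalize hu : (t * t) >>> 40 = u at f1 f2 ⊢
  have hu1 : (u : ℝ) ≤ 1099511627776 * x ^ 2 := by nlinarith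
  have hu2 : 1099511627776 * x ^ 2 ≤ u + 1 := by nlinarith
  have s12 : (0 : ℝ) ≤ 1 / 25 ∧ (1 / 25 : ℝ) ≤ 1 / 2 ∧ ((43980465111 : ℕ) : ℝ) ≤ 1099511627776 * (1 / 25) ∧
    1099511627776 * (1 / 25 : ℝ) ≤ ((43980465111 : ℕ) : ℝ) + 3 := by
    refine ⟨?_, ?_, ?_, ?_⟩ <;> norm_num
  obtain ⟨a1, a2, a3, a4⟩ := s12
  obtain ⟨b1, b2, b3, b4⟩ := horner (c := 47804853381) (q := 1 / 23) hU0 hU hu1 hu2 a1 a2 a3 a4
    (by norm_num) (by norm_num) (by norm_num) (by norm_num)
  obtain ⟨a1, a2, a3, a4⟩ := horner (c := 52357696560) (q := 1 / 21) hU0 hU hu1 hu2 b1 b2 b3 b4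
    (by norm_num) (by norm_num) (by norm_num) (by norm_num)
  obtain ⟨b1, b2, b3, b4⟩ := horner (c := 57869033040) (q := 1 / 19) hU0 hU hu1 hu2 a1 a2 a3 a4
    (by norm_num) (by norm_num) (by norm_num) (by norm_num)
  obtain ⟨a1, a2, a3, a4⟩ := horner (c := 64677154575) (q := 1 / 17) hU0 hU hu1 hu2 b1 b2 b3 b4
    (by norm_num) (by norm_num) (by norm_num) (by norm_num)
  obtain ⟨b1, b2, b3, b4⟩ := horner (c := 73300775185) (q := 1 / 15) hU0 hU hu1 hu2 a1 a2 a3 a4
    (by norm_num) (by norm_num) (by norm_num) (by norm_num)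
  obtain ⟨a1, a2, a3, a4⟩ := horner (c := 84577817521) (q := 1 / 13) hU0 hU hu1 hu2 b1 b2 b3 b4
    (by norm_num) (by norm_num) (by norm_num) (by norm_num)
  obtain ⟨b1, b2, b3, b4⟩ := horner (c := 99955602525) (q := 1 / 11) hU0 hU hu1 hu2 a1 a2 a3 a4
    (by norm_num) (by norm_num) (by norm_num) (by norm_num)
  obtain ⟨a1, a2, a3, a4⟩ := horner (c := 122167958641) (q := 1 / 9) hU0 hU hu1 hu2 b1 b2 b3 b4
    (by norm_num) (by norm_num) (by norm_num) (by norm_num)
  obtain ⟨b1, b2, b3, b4⟩ := horner (c := 157073089682) (q := 1 / 7) hU0 hU hu1 hu2 a1 a2 a3 a4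
    (by norm_num) (by norm_num) (by norm_num) (by norm_num)
  obtain ⟨a1, a2, a3, a4⟩ := horner (c := 219902325555) (q := 1 / 5) hU0 hU hu1 hu2 b1 b2 b3 b4
    (by norm_num) (by norm_num) (by norm_num) (by norm_num)
  obtain ⟨b1, b2, b3, b4⟩ := horner (c := 366503875925) (q := 1 / 3) hU0 hU hu1 hu2 a1 a2 a3 a4
    (by norm_num) (by norm_num) (by norm_num) (by norm_num)
  obtain ⟨c1, c2⟩ := horner0 hU0 hU hu1 hu2 b1 b2 b3 b4
  generalize hR : (1 + x ^ 2 * (1 / 3 + x ^ 2 * (1 / 5 + x ^ 2 * (1 / 7 + x ^ 2 * (1 / 9 + x ^ 2 *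
    (1 / 11 + x ^ 2 * (1 / 13 + x ^ 2 * (1 / 15 + x ^ 2 * (1 / 17 + x ^ 2 * (1 / 19 + x ^ 2 * (1 / 21 + x ^ 2 *
    (1 / 23 + x ^ 2 * (1 / 25))))))))))))) = R at c1 c2
  have hS : ∑ i ∈ Finset.range 13, x ^ (2 * i + 1) / (2 * i + 1 : ℝ) = x * R := by
    rw [← hR]
    exact sumR x
  rw [hS]
  exact at2_fin ht hx0 hx3 c1 c2

/-- `at2` against the logarithm -/
theorem at2_log {t : ℕ} {x : ℝ} (hx : x = (t : ℝ) / 1099511627776) (hx3 : x ≤ 1 / 3) :
    (N.at2 t : ℝ) ≤ 1099511627776 * Real.log ((1 + x) / (1 - x)) ∧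
    1099511627776 * Real.log ((1 + x) / (1 - x)) ≤ (N.at2 t : ℝ) + (4 : ℝ) := by
  have hx0 : 0 ≤ x := by rw [hx]; positivity
  have hx1 : x < 1 := by linarith
  obtain ⟨p1, p2⟩ := at2_poly hx hx3
  have l1 := Real.sum_range_le_log_div hx0 hx1 13
  have l2 := Real.log_div_le_sum_range_add hx0 hx1 13
  have hpw : x ^ (2 * 13 + 1) ≤ (1 / 3) ^ (2 * 13 + 1) := pow_le_pow_left₀ hx0 hx3 _
  have hpw0 : 0 ≤ x ^ (2 * 13 + 1) := by positivity
  have hU : x ^ 2 ≤ 1 / 9 := by nlinarith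
  have htail : x ^ (2 * 13 + 1) / (1 - x ^ 2) ≤ 1 / 4000000000000 := by
    rw [div_le_iff₀ (by linarith)]
    have h9 : ((1 : ℝ) / 3) ^ (2 * 13 + 1) ≤ 1 / 4000000000000 * (8 / 9) := by norm_num
    nlinarith
  constructor
  · linarith
  · linarith

/-- bounds of `log 2` -/
theorem log2_bd : (762123384785 : ℝ) ≤ 1099511627776 * Real.log 2 ∧
    1099511627776 * Real.log 2 ≤ (762123384786 : ℝ) := by
  have l1 := Real.sum_range_le_log_div (x := 1 / 3) (by norm_num) (by norm_num) 15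
  have l2 := Real.log_div_le_sum_range_add (x := 1 / 3) (by norm_num) (by norm_num) 15
  have e2 : ((1 : ℝ) + 1 / 3) / (1 - 1 / 3) = 2 := by norm_num
  rw [e2] at l1 l2
  simp only [Finset.sum_range_succ, Finset.sum_range_zero] at l1 l2
  norm_num at l1 l2
  constructor
  · linarith
  · linarith

/-- change of the argument -/
theorem log_arg {x t : ℝ} (h0 : 0 ≤ x) (hxt : x ≤ t) (ht : t ≤ 1 / 3) (hd : (t - x) * 1099511627776 ≤ 1) :
    Real.log ((1 + x) / (1 - x)) ≤ Real.log ((1 + t) / (1 - t)) ∧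
    1099511627776 * Real.log ((1 + t) / (1 - t)) ≤ 1099511627776 * Real.log ((1 + x) / (1 - x)) + 3 := by
  have hx1 : 0 < 1 - x := by linarith
  have ht1 : 0 < 1 - t := by linarith
  have hx2 : 0 < 1 + x := by linarith
  have ht2 : 0 < 1 + t := by linarith
  constructor
  · apply Real.log_le_log (by positivity)
    rw [div_le_div_iff₀ hx1 ht1]
    nlinarith
  · have hq : Real.log ((1 + t) / (1 - t)) - Real.log ((1 + x) / (1 - x)) =
        Real.log (((1 + t) / (1 - t)) / ((1 + x) / (1 - x))) :=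
      (Real.log_div (by positivity) (by positivity)).symm
    have hq2 : Real.log (((1 + t) / (1 - t)) / ((1 + x) / (1 - x))) ≤
        ((1 + t) / (1 - t)) / ((1 + x) / (1 - x)) - 1 := Real.log_le_sub_one_of_pos (by positivity)
    have hq3 : ((1 + t) / (1 - t)) / ((1 + x) / (1 - x)) - 1 = 2 * (t - x) / ((1 - t) * (1 + x)) := by
      field_simp
      ring
    have hq4 : 2 * (t - x) / ((1 - t) * (1 + x)) ≤ 3 * (t - x) := by
      rw [div_le_iff₀ (by positivity)]
      have : 2 / 3 ≤ (1 - t) * (1 + x) := by nlinarith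
      nlinarith
    linarith

/-- `lnL` against the logarithm -/
theorem lnL_log {v : ℕ} (h0 : 0 < v) (h1 : v < 1099511627776) :
    (N.lnL v : ℝ) ≤ 1099511627776 * -Real.log (vR v) ∧
    1099511627776 * -Real.log (vR v) ≤ (N.lnL v : ℝ) + (46 : ℝ) := by
  have hl1 : 2 ^ v.log2 ≤ v := Nat.log2_self_le h0.ne'
  have hl2 : v < 2 ^ (v.log2 + 1) := Nat.lt_log2_self
  have hl3 : v.log2 < 40 := by
    by_contra hc
    have h3 : 2 ^ 40 ≤ 2 ^ v.log2 := Nat.pow_le_pow_right (by norm_num) (not_lt.mp hc)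
    have h4 : (2 : ℕ) ^ 40 = 1099511627776 := by norm_num
    omega
  obtain ⟨e, he⟩ : ∃ e, e + v.log2 = 39 := ⟨39 - v.log2, by omega⟩
  have hee : 40 - (v.log2 + 1) = e := by omega
  have hw1 : 549755813888 ≤ v * 2 ^ e := by
    calc (549755813888 : ℕ) = 2 ^ (e + v.log2) := by rw [he]; norm_num
      _ = 2 ^ v.log2 * 2 ^ e := by rw [pow_add]; ring
      _ ≤ v * 2 ^ e := Nat.mul_le_mul_right _ hl1
  have hw2 : v * 2 ^ e < 1099511627776 := by
    calc v * 2 ^ e < 2 ^ (v.log2 + 1) * 2 ^ e := Nat.mul_lt_mul_of_pos_right hl2 (by positivity)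
      _ = 2 ^ (e + v.log2 + 1) := by rw [pow_add, pow_add, pow_add]; ring
      _ = 1099511627776 := by rw [he]; norm_num
  have hun : N.lnL v = 762123384785 * e + N.at2 (((1099511627776 - v * 2 ^ e) <<< 40) /
      (1099511627776 + v * 2 ^ e)) := by
    have hb : Nat.ble 1099511627776 v = false := by
      rw [← Bool.not_eq_true, Nat.ble_eq]
      omega
    rw [N.lnL, hb, cond_false, frc_eq, frc_eq]
    have : (40 : ℕ).sub (Nat.succ v.log2) = e := by
      rw [← hee]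
      rfl
    rw [this]
    have h5 : v.shiftLeft e = v * 2 ^ e := Nat.shiftLeft_eq v e
    rw [h5]
    rfl
  generalize hw : v * 2 ^ e = w at hw1 hw2 hun
  have hwR : (w : ℝ) = v * 2 ^ e := by rw [← hw]; push_cast; ring
  set T := ((1099511627776 - w) <<< 40) / (1099511627776 + w) with hT
  have hTf : T * (1099511627776 + w) ≤ (1099511627776 - w) * 1099511627776 ∧
      (1099511627776 - w) * 1099511627776 < (T + 1) * (1099511627776 + w) := by
    have h6 : (1099511627776 - w) <<< 40 = (1099511627776 - w) * 1099511627776 := by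
      rw [Nat.shiftLeft_eq]
    rw [hT, h6]
    have hpos : 0 < 1099511627776 + w := by omega
    exact ⟨Nat.div_mul_le_self _ _, (Nat.div_lt_iff_lt_mul hpos).mp (Nat.lt_succ_self _)⟩
  clear_value T
  have hw2' : w ≤ 1099511627776 := hw2.le
  have hsub : ((1099511627776 - w : ℕ) : ℝ) = 1099511627776 - (w : ℝ) := by
    rw [Nat.cast_sub hw2']
    norm_num
  obtain ⟨t1, t2⟩ := hTf
  have t1' : (T : ℝ) * (1099511627776 + w) ≤ (1099511627776 - (w : ℝ)) * 1099511627776 := by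
    have h7 : ((T * (1099511627776 + w) : ℕ) : ℝ) ≤ (((1099511627776 - w) * 1099511627776 : ℕ) : ℝ) :=
      Nat.cast_le.mpr t1
    rw [Nat.cast_mul, Nat.cast_mul, hsub] at h7
    push_cast at h7
    exact h7
  have t2' : (1099511627776 - (w : ℝ)) * 1099511627776 < ((T : ℝ) + 1) * (1099511627776 + w) := by
    have h7 : (((1099511627776 - w) * 1099511627776 : ℕ) : ℝ) < (((T + 1) * (1099511627776 + w) : ℕ) : ℝ) :=
      Nat.cast_lt.mpr t2
    rw [Nat.cast_mul, Nat.cast_mul, hsub] at h7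
    push_cast at h7
    exact h7
  have w1 : (549755813888 : ℝ) ≤ w := by exact_mod_cast hw1
  have w2 : (w : ℝ) < 1099511627776 := by exact_mod_cast hw2
  have hPw : (0 : ℝ) < 1099511627776 + w := by linarith
  obtain ⟨t, ht⟩ : ∃ t : ℝ, t = (1099511627776 - w) / (1099511627776 + w) := ⟨_, rfl⟩
  have htm : t * (1099511627776 + w) = 1099511627776 - w := by
    rw [ht]
    exact div_mul_cancel₀ _ hPw.ne'
  have ht3 : t ≤ 1 / 3 := by
    rw [ht, div_le_iff₀ hPw]
    linarith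
  have hxt : (T : ℝ) / 1099511627776 ≤ t := by
    rw [div_le_iff₀ (by norm_num), ht, div_mul_eq_mul_div, le_div_iff₀ hPw]
    exact t1'
  have hxt2 : (t - (T : ℝ) / 1099511627776) * 1099511627776 ≤ 1 := by
    have h8 : t * 1099511627776 ≤ (T : ℝ) + 1 := by
      rw [ht, div_mul_eq_mul_div, div_le_iff₀ hPw]
      exact t2'.le
    have h9 : (T : ℝ) / 1099511627776 * 1099511627776 = T := div_mul_cancel₀ _ (by norm_num)
    linarith
  have hx0 : 0 ≤ (T : ℝ) / 1099511627776 := by positivity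
  obtain ⟨m1, m2⟩ := log_arg hx0 hxt ht3 hxt2
  obtain ⟨n1, n2⟩ := at2_log (t := T) rfl (hxt.trans ht3)
  obtain ⟨d1, d2⟩ := log2_bd
  have hv0 : (0 : ℝ) < v := by exact_mod_cast h0
  have hw0 : (0 : ℝ) < w := by linarith
  have hL : -Real.log (vR v) = Real.log ((1 + t) / (1 - t)) + e * Real.log 2 := by
    have e1 : (1 + t) / (1 - t) = 1099511627776 / w := by
      have h1t : 0 < 1 - t := by linarith
      rw [div_eq_div_iff h1t.ne' hw0.ne']
      linarith
    have e2 : vR v = w / 1099511627776 / 2 ^ e := by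
      rw [vR, hwR]
      field_simp
      norm_num
    rw [e1, e2, Real.log_div (by positivity) (by positivity), Real.log_pow,
      Real.log_div hw0.ne' (by norm_num), Real.log_div (by norm_num) hw0.ne']
    ring
  have he0 : (0 : ℝ) ≤ e := Nat.cast_nonneg e
  have he39 : (e : ℝ) ≤ 39 := by
    have : e ≤ 39 := by omega
    exact_mod_cast this
  have hlnR : (N.lnL v : ℝ) = 762123384785 * e + (N.at2 T : ℝ) := by
    rw [hun]
    push_cast
    ring
  have q1 : (e : ℝ) * 762123384785 ≤ e * (1099511627776 * Real.log 2) := mul_le_mul_of_nonneg_left d1 he0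
  have q2 : (e : ℝ) * (1099511627776 * Real.log 2) ≤ e * 762123384786 := mul_le_mul_of_nonneg_left d2 he0
  rw [hlnR, hL]
  constructor
  · linarith
  · linarith

theorem gLN : GLN := by
  have hp : ∀ y : ℕ, (1099511627776 : ℝ) * vR y = y := by
    intro y
    rw [vR]
    norm_num
    ring
  have hvpos : ∀ v : ℕ, 0 < v → 0 < vR v := by
    intro v hv
    rw [vR]
    have : (0 : ℝ) < v := by exact_mod_cast hv
    positivity
  have hbig : ∀ v : ℕ, 1099511627776 ≤ v → N.lnL v = 0 := by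
    intro v hv
    have hb : Nat.ble 1099511627776 v = true := by
      rw [Nat.ble_eq]
      exact hv
    rw [N.lnL, hb, cond_true]
  have hcmp : ∀ (v : ℕ) (a : ℝ), 0 < v → 0 < a → a ≤ 1 → a ≤ vR v →
      (N.lnL v : ℝ) ≤ 1099511627776 * -Real.log a := by
    intro v a hv ha ha1 hav
    rcases le_or_gt 1099511627776 v with h | h
    · rw [hbig v h]
      have := Real.log_nonpos ha.le ha1
      push_cast
      linarith
    · have h1 := (lnL_log hv h).1
      have h2 := Real.log_le_log ha hav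
      linarith
  refine ⟨?_, ?_, ?_, ?_⟩
  · intro v a ha ha1 hav
    have hv : 0 < v := by
      rcases Nat.eq_zero_or_pos v with h | h
      · exfalso
        rw [h, vR] at hav
        norm_num at hav
        linarith
      · exact h
    have h1 := hcmp v a hv ha ha1 hav
    have h2 := hp (N.lnL v)
    linarith
  · intro v a hv hav
    have h2 := hp (N.lnU v)
    have h3 : (N.lnU v : ℝ) = 80 + N.lnL v := by
      have : N.lnU v = 80 + N.lnL v := rfl
      rw [this]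
      push_cast
      ring
    have h4 := Real.log_le_log (hvpos v hv) hav
    rcases le_or_gt 1099511627776 v with h | h
    · have h5 : 0 ≤ Real.log (vR v) := by
        apply Real.log_nonneg
        rw [vR, le_div_iff₀ (by positivity)]
        have : (1099511627776 : ℝ) ≤ v := by exact_mod_cast h
        linarith
      have h6 : (0 : ℝ) ≤ N.lnL v := Nat.cast_nonneg _
      linarith
    · have h1 := (lnL_log hv h).2
      linarith
  · intro v hv
    have hv0 : 0 < v := lt_of_lt_of_le (by positivity) hv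
    have hvr : ((2 : ℝ) ^ 20)⁻¹ ≤ vR v := by
      rw [vR, le_div_iff₀ (by positivity)]
      have : ((2 ^ 20 : ℕ) : ℝ) ≤ v := Nat.cast_le.mpr hv
      push_cast at this
      norm_num at this ⊢
      linarith
    have h1 := hcmp v _ hv0 (by positivity) (by norm_num) hvr
    rw [Real.log_inv, Real.log_pow] at h1
    have h2 := log2_bd.2
    push_cast at h1
    have h3 : (N.lnL v : ℝ) ≤ 20 * 762123384786 := by linarith
    have h4 : N.lnL v ≤ 20 * 762123384786 := by exact_mod_cast h3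
    have h5 : N.lnU v = 80 + N.lnL v := rfl
    rw [h5]
    norm_num
    omega
  · intro v hv
    have hvr : ((2 : ℝ) ^ 40)⁻¹ ≤ vR v := by
      rw [vR, le_div_iff₀ (by positivity)]
      norm_num
      exact hv
    have h1 := hcmp v _ hv (by positivity) (by norm_num) hvr
    rw [Real.log_inv, Real.log_pow] at h1
    have h2 := log2_bd.2
    push_cast at h1
    have h3 : (N.lnL v : ℝ) ≤ 40 * 762123384786 := by linarith
    have h4 : N.lnL v ≤ 40 * 762123384786 := by exact_mod_cast h3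
    norm_num
    omega

end Pool.Agent.Helper35.PT
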