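import Pool.Agent.Helper35.PT.LN
import Mathlib.Analysis.SpecialFunctions.Pow.Real

/-!
# MP_705522_gt, packet PT-POW: `N.powL`, `N.powU`, `N.lC`
-/

namespace Pool.Agent.Helper35.PT

open Pool.Agent.Helper53.PT

theorem powL_succ (v n : ℕ) : N.powL v (n + 1) = (N.powL v n * v) >>> 40 := rfl

theorem powU_succ (v n : ℕ) : N.powU v (n + 1) = (N.powU v n * v) >>> 40 + 1 := rfl

theorem vR_mul (y : ℕ) : (1099511627776 : ℝ) * vR y = y := by
  rw [vR]
  norm_num
  ring

theorem vR_nonneg (y : ℕ) : 0 ≤ vR y := by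
  rw [vR]
  positivity

theorem pow_bd (v n : ℕ) : vR (N.powL v n) ≤ vR v ^ n ∧ vR v ^ n ≤ vR (N.powU v n) := by
  induction n with
  | zero =>
    have h1 : N.powL v 0 = 1099511627776 := rfl
    have h2 : N.powU v 0 = 1099511627776 := rfl
    rw [h1, h2, pow_zero, vR]
    norm_num
  | succ n ih =>
    obtain ⟨i1, i2⟩ := ih
    have hv := vR_nonneg v
    have hv2 := vR_mul v
    constructor
    · rw [powL_succ, pow_succ]
      have f1 := (flo (N.powL v n * v)).1
      push_cast at f1
      have h3 := vR_mul (N.powL v n)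
      have h4 := vR_mul ((N.powL v n * v) >>> 40)
      have h5 := mul_le_mul_of_nonneg_right i1 hv
      rw [← h3, ← hv2, ← h4] at f1
      linarith
    · rw [powU_succ, pow_succ]
      have f1 := (flo (N.powU v n * v)).2
      push_cast at f1
      have h3 := vR_mul (N.powU v n)
      have h4 := vR_mul ((N.powU v n * v) >>> 40 + 1)
      have h5 := mul_le_mul_of_nonneg_right i2 hv
      push_cast at h4
      rw [← h4, ← h3, ← hv2] at f1
      linarith

theorem pow_of_ln (hL : GLN) : GPOW := by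
  refine ⟨pow_bd, ?_⟩
  intro c gn x hc hc1 hx
  have hx0 : (0 : ℝ) < x := by
    have : 0 < x := lt_of_lt_of_le (by positivity) hx
    exact_mod_cast this
  have hxR : (4294967296 : ℝ) ≤ x := by
    have : ((2 ^ 32 : ℕ) : ℝ) ≤ x := Nat.cast_le.mpr hx
    push_cast at this
    norm_num at this ⊢
    exact this
  have hw : 64 / aR x = 4294967296 / x := by
    rw [aR]
    field_simp
    norm_num
  have hw0 : 0 < 64 / aR x := by
    rw [hw]
    positivity
  have hw1 : 64 / aR x ≤ 1 := by
    rw [hw, div_le_one hx0]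
    exact hxR
  have hy : 64 / aR x ≤ vR (Nat.succ (4722366482869645213696 / x)) := by
    have h1 : 4722366482869645213696 < (4722366482869645213696 / x + 1) * x := by
      have hxn : 0 < x := lt_of_lt_of_le (by positivity) hx
      exact (Nat.div_lt_iff_lt_mul hxn).mp (Nat.lt_succ_self _)
    have h2 : ((4722366482869645213696 : ℕ) : ℝ) <
        (((4722366482869645213696 / x + 1) * x : ℕ) : ℝ) := Nat.cast_lt.mpr h1
    rw [Nat.cast_mul] at h2
    have h3 := vR_mul (Nat.succ (4722366482869645213696 / x))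
    have h4 : ((4722366482869645213696 : ℕ) : ℝ) = 4722366482869645213696 := by norm_num
    rw [h4] at h2
    rw [hw, div_le_iff₀ hx0]
    have h5 : (1099511627776 : ℝ) * (vR (Nat.succ (4722366482869645213696 / x)) * x) =
        ((4722366482869645213696 / x + 1 : ℕ) : ℝ) * x := by
      rw [← mul_assoc, h3]
    linarith
  have k1 := hL.1 (Nat.succ (4722366482869645213696 / x)) (64 / aR x) hw0 hw1 hy
  have hc0 : 0 < vR c := by
    rw [vR]
    have : (0 : ℝ) < c := by exact_mod_cast hc
    positivity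
  have hc2 : vR c ≤ 1 := by
    rw [vR, div_le_one (by positivity)]
    have : (c : ℝ) ≤ ((2 ^ 40 : ℕ) : ℝ) := Nat.cast_le.mpr hc1
    push_cast at this
    norm_num at this ⊢
    exact this
  have k2 := hL.1 c (vR c) hc0 hc2 le_rfl
  have hlog : vR c * (64 / aR x) ^ ((gn : ℝ) / 32) =
      Real.exp (Real.log (vR c) + (gn : ℝ) / 32 * Real.log (64 / aR x)) := by
    rw [Real.exp_add, Real.exp_log hc0, mul_comm ((gn : ℝ) / 32), Real.rpow_def_of_pos hw0]
  rw [hlog]
  apply Real.exp_le_exp.mpr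
  have hlc : N.lC c gn x = N.lnL c + (gn * N.lnL (Nat.succ (4722366482869645213696 / x))) >>> 5 := rfl
  have hsh : (((gn * N.lnL (Nat.succ (4722366482869645213696 / x))) >>> 5 : ℕ) : ℝ) * 32 ≤
      (gn : ℝ) * N.lnL (Nat.succ (4722366482869645213696 / x)) := by
    rw [Nat.shiftRight_eq_div_pow]
    have := Nat.div_mul_le_self (gn * N.lnL (Nat.succ (4722366482869645213696 / x))) (2 ^ 5)
    have h6 : (((gn * N.lnL (Nat.succ (4722366482869645213696 / x)) / 2 ^ 5) * 2 ^ 5 : ℕ) : ℝ) ≤
        ((gn * N.lnL (Nat.succ (4722366482869645213696 / x)) : ℕ) : ℝ) := Nat.cast_le.mpr this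
    rw [Nat.cast_mul, Nat.cast_mul] at h6
    have h7 : (((2 ^ 5 : ℕ)) : ℝ) = 32 := by norm_num
    rw [h7] at h6
    exact h6
  have hg : (0 : ℝ) ≤ gn := Nat.cast_nonneg gn
  have k3 := mul_le_mul_of_nonneg_left k1 hg
  have e1 := vR_mul (N.lC c gn x)
  have e2 := vR_mul (N.lnL c)
  have e3 := vR_mul (N.lnL (Nat.succ (4722366482869645213696 / x)))
  rw [hlc, Nat.cast_add, ← hlc] at e1
  rw [← e3] at hsh
  rw [← e2] at e1
  generalize hA : (((gn * N.lnL (Nat.succ (4722366482869645213696 / x))) >>> 5 : ℕ) : ℝ) = A at hsh e1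
  generalize hB : vR (N.lnL (Nat.succ (4722366482869645213696 / x))) = B at hsh k3
  nlinarith

theorem gPOW : GPOW := pow_of_ln gLN

end Pool.Agent.Helper35.PT
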